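import Mathlib

set_option autoImplicit false
set_option linter.unusedSimpArgs false
set_option linter.style.haveILetI false

namespace Pool.Agent.Lib.MP_aafbbc_al

section general
variable {Z : Type*} [CommRing Z]

/-- The cross product components of commuting quaternions are killed by 2. -/
lemma comm_components {x y : Quaternion Z} (h : x * y = y * x) :
    2 * (x.imJ * y.imK) = 2 * (x.imK * y.imJ) ∧ 2 * (x.imK * y.imI) = 2 * (x.imI * y.imK) ∧
      2 * (x.imI * y.imJ) = 2 * (x.imJ * y.imI) := by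
  have h1 := congrArg QuaternionAlgebra.imI h
  have h2 := congrArg QuaternionAlgebra.imJ h
  have h3 := congrArg QuaternionAlgebra.imK h
  simp only [Quaternion.imI_mul, Quaternion.imJ_mul, Quaternion.imK_mul] at h1 h2 h3
  refine ⟨?_, ?_, ?_⟩
  · linear_combination h1
  · linear_combination h2
  · linear_combination h3

lemma comm_of_components {x y : Quaternion Z}
    (h1 : 2 * (x.imJ * y.imK) = 2 * (x.imK * y.imJ))
    (h2 : 2 * (x.imK * y.imI) = 2 * (x.imI * y.imK))
    (h3 : 2 * (x.imI * y.imJ) = 2 * (x.imJ * y.imI)) : x * y = y * x := by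
  apply QuaternionAlgebra.ext <;>
    simp only [Quaternion.re_mul, Quaternion.imI_mul, Quaternion.imJ_mul, Quaternion.imK_mul]
  · ring
  · linear_combination h1
  · linear_combination h2
  · linear_combination h3

lemma comm_aux {p q r s t u s' t' u' : Z} (hp : IsUnit p)
    (h2 : 2 * (r * s) = 2 * (p * u)) (h3 : 2 * (p * t) = 2 * (q * s))
    (h2' : 2 * (r * s') = 2 * (p * u')) (h3' : 2 * (p * t') = 2 * (q * s')) :
    2 * (t * u') = 2 * (u * t') ∧ 2 * (u * s') = 2 * (s * u') ∧ 2 * (s * t') = 2 * (t * s') := by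
  obtain ⟨v, hv⟩ := hp.exists_left_inv
  have ht : 2 * t = 2 * v * q * s := by linear_combination v * h3 - 2 * t * hv
  have hu : 2 * u = 2 * v * r * s := by linear_combination -v * h2 - 2 * u * hv
  have ht' : 2 * t' = 2 * v * q * s' := by linear_combination v * h3' - 2 * t' * hv
  have hu' : 2 * u' = 2 * v * r * s' := by linear_combination -v * h2' - 2 * u' * hv
  refine ⟨?_, ?_, ?_⟩
  · linear_combination u' * ht - t' * hu + v * q * s * hu' - v * r * s * ht'
  · linear_combination s' * hu - s * hu'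
  · linear_combination s * ht' - s' * ht

/-- If `x` has a unit imaginary component, then any two elements commuting with `x` commute. -/
lemma comm_of_comm {x y z : Quaternion Z} (hx : IsUnit x.imI ∨ IsUnit x.imJ ∨ IsUnit x.imK)
    (hy : x * y = y * x) (hz : x * z = z * x) : y * z = z * y := by
  obtain ⟨a1, a2, a3⟩ := comm_components hy
  obtain ⟨b1, b2, b3⟩ := comm_components hz
  rcases hx with h | h | h
  · obtain ⟨c1, c2, c3⟩ := comm_aux h a2 a3 b2 b3
    exact comm_of_components c1 c2 c3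
  · obtain ⟨c1, c2, c3⟩ := comm_aux h a3 a1 b3 b1
    exact comm_of_components c3 c1 c2
  · obtain ⟨c1, c2, c3⟩ := comm_aux h a1 a2 b1 b2
    exact comm_of_components c2 c3 c1


end general

section two

variable {m : ℕ}

lemma two_pow_zero (m : ℕ) : (2 : ZMod (2 ^ m)) ^ m = 0 := by
  have := ZMod.natCast_self (2 ^ m)
  push_cast at this
  exact this

/-- every element of `ZMod (2^m)` is even or odd -/
lemma even_or_odd' (x : ZMod (2 ^ m)) : (∃ y, x = 2 * y) ∨ ∃ y, x = 1 + 2 * y := by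
  have hx : ((x.val : ℕ) : ZMod (2 ^ m)) = x := by
    have : NeZero (2 ^ m) := ⟨by positivity⟩
    exact ZMod.natCast_zmod_val x
  rcases Nat.even_or_odd' x.val with ⟨k, hk | hk⟩
  · left; refine ⟨(k : ZMod (2 ^ m)), ?_⟩
    rw [← hx, hk]; push_cast; ring
  · right; refine ⟨(k : ZMod (2 ^ m)), ?_⟩
    rw [← hx, hk]; push_cast; ring

/-- odd elements are units -/
lemma isUnit_odd (y : ZMod (2 ^ m)) : IsUnit (1 + 2 * y) := by
  apply IsNilpotent.isUnit_one_add
  refine ⟨m, ?_⟩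
  rw [mul_pow, two_pow_zero, zero_mul]

/-- units are odd, when `m ≥ 1` -/
lemma odd_of_isUnit (hm : 1 ≤ m) {x : ZMod (2 ^ m)} (hx : IsUnit x) : ∃ y, x = 1 + 2 * y := by
  rcases even_or_odd' x with ⟨y, hy⟩ | h
  · exfalso
    obtain ⟨v, hv⟩ := hx.exists_left_inv
    have h2 : IsNilpotent x := ⟨m, by rw [hy, mul_pow, two_pow_zero, zero_mul]⟩
    have : Fact (1 < 2 ^ m) := ⟨Nat.one_lt_two_pow (by omega)⟩
    exact h2.not_isUnit hx
  · exact h

lemma half_of_two_mul (hm : 1 ≤ m) {x : ZMod (2 ^ m)} (hx : 2 * x = 0) :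
    ∃ y, x = 2 ^ (m - 1) * y := by
  have : NeZero (2 ^ m) := ⟨by positivity⟩
  have hx' : ((x.val : ℕ) : ZMod (2 ^ m)) = x := ZMod.natCast_zmod_val x
  rw [← hx'] at hx
  have : ((2 * x.val : ℕ) : ZMod (2 ^ m)) = 0 := by push_cast; exact hx
  rw [ZMod.natCast_eq_zero_iff] at this
  obtain ⟨k, hk⟩ := this
  refine ⟨(k : ZMod (2 ^ m)), ?_⟩
  rw [← hx']
  have h3 : x.val = 2 ^ (m - 1) * k := by
    have h4 : 2 ^ m = 2 * 2 ^ (m - 1) := by
      rw [← pow_succ']; congr 1; omega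
    have h5 : 2 * x.val = (2 * 2 ^ (m - 1)) * k := by
      rw [← h4]; exact hk
    rw [mul_assoc] at h5
    exact Nat.eq_of_mul_eq_mul_left (by norm_num) h5
  rw [h3]; push_cast; ring

end two


section three

lemma exists_quat {Z : Type*} [CommRing Z] (a b c d : Z) :
    ∃ q : Quaternion Z, q.re = a ∧ q.imI = b ∧ q.imJ = c ∧ q.imK = d :=
  ⟨⟨a, b, c, d⟩, rfl, rfl, rfl, rfl⟩

lemma re_nsmul' {Z : Type*} [CommRing Z] (n : ℕ) (h : Quaternion Z) : (n • h).re = n * h.re := by
  rw [nsmul_eq_mul]; simp [Quaternion.re_mul]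
lemma imI_nsmul' {Z : Type*} [CommRing Z] (n : ℕ) (h : Quaternion Z) : (n • h).imI = n * h.imI := by
  rw [nsmul_eq_mul]; simp [Quaternion.imI_mul]
lemma imJ_nsmul' {Z : Type*} [CommRing Z] (n : ℕ) (h : Quaternion Z) : (n • h).imJ = n * h.imJ := by
  rw [nsmul_eq_mul]; simp [Quaternion.imJ_mul]
lemma imK_nsmul' {Z : Type*} [CommRing Z] (n : ℕ) (h : Quaternion Z) : (n • h).imK = n * h.imK := by
  rw [nsmul_eq_mul]; simp [Quaternion.imK_mul]

/-- squares become `1 + 2 h` -/
lemma exists_sq_eq {m : ℕ} (hm : 1 ≤ m) {u : Quaternion (ZMod (2 ^ m))} (hu : IsUnit u) :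
    ∃ h : Quaternion (ZMod (2 ^ m)), u ^ 2 = 1 + (2 : ℕ) • h := by
  have hN : IsUnit (Quaternion.normSq u) := hu.map _
  obtain ⟨t, ht⟩ := odd_of_isUnit hm hN
  rw [Quaternion.normSq_def'] at ht
  obtain ⟨h, h1, h2, h3, h4⟩ := exists_quat (u.re ^ 2 - 1 - t) (u.re * u.imI) (u.re * u.imJ)
    (u.re * u.imK)
  refine ⟨h, ?_⟩
  apply QuaternionAlgebra.ext <;>
    simp only [sq, Quaternion.re_mul, Quaternion.imI_mul, Quaternion.imJ_mul, Quaternion.imK_mul,
      Quaternion.re_add, Quaternion.imI_add, Quaternion.imJ_add, Quaternion.imK_add,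
      Quaternion.re_one, Quaternion.imI_one, Quaternion.imJ_one, Quaternion.imK_one,
      re_nsmul', imI_nsmul', imJ_nsmul', imK_nsmul', h1, h2, h3, h4] <;>
    push_cast
  · linear_combination -ht
  · ring
  · ring
  · ring

lemma pow_two_pow_aux {R : Type*} [Ring R] {u : R} (hu : ∃ h : R, u ^ 2 = 1 + (2 : ℕ) • h) (k : ℕ) :
    ∃ h : R, u ^ (2 ^ (k + 1)) = 1 + (2 ^ (k + 1) : ℕ) • h := by
  induction k with
  | zero => simpa using hu
  | succ k ih =>
    obtain ⟨h, hh⟩ := ih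
    refine ⟨h + (2 ^ k : ℕ) • (h * h), ?_⟩
    rw [pow_succ 2 (k + 1), pow_mul, hh, sq]
    simp only [add_mul, mul_add, one_mul, mul_one, smul_mul_smul_comm, smul_add, smul_smul]
    have e1 : (2 ^ (k + 1) * 2 : ℕ) • h = (2 ^ (k + 1) : ℕ) • h + (2 ^ (k + 1) : ℕ) • h := by
      rw [mul_comm, two_mul, add_smul]
    have e2 : 2 ^ (k + 1) * 2 * 2 ^ k = 2 ^ (k + 1) * 2 ^ (k + 1) := by ring
    rw [e1, e2]
    abel

/-- The unit group of the Lipschitz quaternions modulo `2^m` has exponent dividing `2^m`. -/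
lemma pow_eq_one {m : ℕ} (hm : 1 ≤ m) (u : (Quaternion (ZMod (2 ^ m)))ˣ) : u ^ (2 ^ m) = 1 := by
  obtain ⟨k, rfl⟩ : ∃ k, m = k + 1 := ⟨m - 1, by omega⟩
  obtain ⟨h, hh⟩ := pow_two_pow_aux (exists_sq_eq (by omega) u.isUnit) k
  apply Units.ext
  rw [Units.val_pow_eq_pow_val, hh, Units.val_one, add_eq_left]
  have h0 : ((2 ^ (k + 1) : ℕ) : ZMod (2 ^ (k + 1))) = 0 := ZMod.natCast_self _
  apply QuaternionAlgebra.ext <;>
    simp only [re_nsmul', imI_nsmul', imJ_nsmul', imK_nsmul', h0, zero_mul] <;> rfl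

end three

section four

variable {Z : Type*} [CommRing Z]

/-- the quaternion `a + b i + c j + d k` -/
def mkq (a b c d : Z) : Quaternion Z := ⟨a, b, c, d⟩

@[simp] lemma mkq_re (a b c d : Z) : (mkq a b c d).re = a := rfl
@[simp] lemma mkq_imI (a b c d : Z) : (mkq a b c d).imI = b := rfl
@[simp] lemma mkq_imJ (a b c d : Z) : (mkq a b c d).imJ = c := rfl
@[simp] lemma mkq_imK (a b c d : Z) : (mkq a b c d).imK = d := rfl

/-- the unit `i` -/
def uI : (Quaternion Z)ˣ where
  val := mkq 0 1 0 0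
  inv := mkq 0 (-1) 0 0
  val_inv := by
    apply Quaternion.ext <;>
    simp [Quaternion.re_mul, Quaternion.imI_mul, Quaternion.imJ_mul, Quaternion.imK_mul] <;> rfl
  inv_val := by
    apply Quaternion.ext <;>
    simp [Quaternion.re_mul, Quaternion.imI_mul, Quaternion.imJ_mul, Quaternion.imK_mul] <;> rfl

/-- the unit `j` -/
def uJ : (Quaternion Z)ˣ where
  val := mkq 0 0 1 0
  inv := mkq 0 0 (-1) 0
  val_inv := by
    apply Quaternion.ext <;>
    simp [Quaternion.re_mul, Quaternion.imI_mul, Quaternion.imJ_mul, Quaternion.imK_mul] <;> rfl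
  inv_val := by
    apply Quaternion.ext <;>
    simp [Quaternion.re_mul, Quaternion.imI_mul, Quaternion.imJ_mul, Quaternion.imK_mul] <;> rfl

/-- the unit `k` -/
def uK : (Quaternion Z)ˣ where
  val := mkq 0 0 0 1
  inv := mkq 0 0 0 (-1)
  val_inv := by
    apply Quaternion.ext <;>
    simp [Quaternion.re_mul, Quaternion.imI_mul, Quaternion.imJ_mul, Quaternion.imK_mul] <;> rfl
  inv_val := by
    apply Quaternion.ext <;>
    simp [Quaternion.re_mul, Quaternion.imI_mul, Quaternion.imJ_mul, Quaternion.imK_mul] <;> rfl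

lemma exists_sq_of_normSq {B : Type*} [CommGroup B] (f : (Quaternion Z)ˣ →* B) (x : Quaternion Z)
    (hx : x.imK = 0) (s : (Quaternion Z)ˣ)
    (hs : (s : Quaternion Z) = ((Quaternion.normSq x : Z) : Quaternion Z)) : ∃ c, f s = c ^ 2 := by
  have e1 : x * star x = s := by rw [hs, Quaternion.self_mul_star]
  have e2 : star x * x = s := by rw [hs, Quaternion.star_mul_self]
  let X : (Quaternion Z)ˣ :=
    { val := x
      inv := star x * ((s⁻¹ : (Quaternion Z)ˣ) : Quaternion Z)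
      val_inv := by rw [← mul_assoc, e1, Units.mul_inv]
      inv_val := by
        have : (s : Quaternion Z) * x = x * s := by
          rw [hs]; exact Quaternion.coe_commutes _ _
        have h3 : ((s⁻¹ : (Quaternion Z)ˣ) : Quaternion Z) * x = x * ((s⁻¹ : (Quaternion Z)ˣ) : Quaternion Z) := by
          calc ((s⁻¹ : (Quaternion Z)ˣ) : Quaternion Z) * x
              = ((s⁻¹ : (Quaternion Z)ˣ) : Quaternion Z) * (x * s) * ((s⁻¹ : (Quaternion Z)ˣ) : Quaternion Z) := by
                rw [mul_assoc, mul_assoc, Units.mul_inv, mul_one]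
            _ = x * ((s⁻¹ : (Quaternion Z)ˣ) : Quaternion Z) := by
                rw [← this, ← mul_assoc, Units.inv_mul, one_mul]
        rw [mul_assoc, h3, ← mul_assoc, e2, Units.mul_inv] }
  have hX : s = uK * X * uK⁻¹ * X := by
    apply Units.ext
    have h4 : (uK : (Quaternion Z)ˣ).val * x * (uK⁻¹ : (Quaternion Z)ˣ).val = star x := by
      change (mkq 0 0 0 1) * x * (mkq 0 0 0 (-1)) = star x
      apply Quaternion.ext <;>
        simp [Quaternion.re_mul, Quaternion.imI_mul, Quaternion.imJ_mul, Quaternion.imK_mul, hx]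
    rw [← e2]
    simp only [Units.val_mul]
    rw [h4]
  refine ⟨f X, ?_⟩
  rw [hX, map_mul, map_mul, map_mul, map_inv, sq]
  congr 1
  rw [mul_comm (f uK), mul_assoc, mul_inv_cancel, mul_one]

lemma isUnit_coe_iff {x : Z} (hx : IsUnit x) : IsUnit ((x : Z) : Quaternion Z) :=
  hx.map (algebraMap Z (Quaternion Z))

/-- Odd scalars are squares in every abelian quotient. -/
lemma scalar_sq {m : ℕ} {B : Type*} [CommGroup B]
    (f : (Quaternion (ZMod (2 ^ m)))ˣ →* B) (n : ℕ) :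
    ∀ k : ℕ, 1 ≤ k → m ≤ k + n → ∀ s : (Quaternion (ZMod (2 ^ m)))ˣ,
      (∃ t : ZMod (2 ^ m), (s : Quaternion (ZMod (2 ^ m))) = ((1 + 2 ^ k * t : ZMod (2 ^ m)) :
        Quaternion (ZMod (2 ^ m)))) → ∃ c, f s = c ^ 2 := by
  induction n with
  | zero =>
    intro k hk hkm s ⟨t, ht⟩
    have h0 : (2 : ZMod (2 ^ m)) ^ k = 0 := by
      obtain ⟨l, rfl⟩ : ∃ l, k = m + l := ⟨k - m, by omega⟩
      rw [pow_add, two_pow_zero, zero_mul]
    rw [h0, zero_mul, add_zero] at ht
    have : s = 1 := Units.ext ht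
    exact ⟨1, by rw [this, map_one, one_pow]⟩
  | succ n ih =>
    intro k hk hkm s ⟨t, ht⟩
    rcases even_or_odd' t with ⟨y, hy⟩ | ⟨y, hy⟩
    · refine ih (k + 1) (by omega) (by omega) s ⟨y, ?_⟩
      rw [ht, hy]
      congr 1
      ring
    · -- multiply by `1 + 2^k`
      have hμ : IsUnit (1 + 2 ^ k : ZMod (2 ^ m)) := by
        obtain ⟨l, rfl⟩ : ∃ l, k = l + 1 := ⟨k - 1, by omega⟩
        have := isUnit_odd (m := m) (2 ^ l)
        rwa [← pow_succ'] at this
      obtain ⟨μ, hμ'⟩ := isUnit_coe_iff hμ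
      have h1 : ∃ c, f μ = c ^ 2 := by
        rcases Nat.even_or_odd' k with ⟨r, hr | hr⟩
        · refine exists_sq_of_normSq f (mkq 1 (2 ^ r) 0 0) (by simp) μ ?_
          rw [hμ', Quaternion.normSq_def']
          congr 1
          simp only [mkq_re, mkq_imI, mkq_imJ, mkq_imK]
          rw [hr]; ring
        · refine exists_sq_of_normSq f (mkq 1 (2 ^ r) (2 ^ r) 0) (by simp) μ ?_
          rw [hμ', Quaternion.normSq_def']
          congr 1
          simp only [mkq_re, mkq_imI, mkq_imJ, mkq_imK]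
          rw [hr]; ring
      have h2 : ∃ c, f (s * μ) = c ^ 2 := by
        obtain ⟨l, rfl⟩ : ∃ l, k = l + 1 := ⟨k - 1, by omega⟩
        refine ih (l + 1 + 1) (by omega) (by omega) (s * μ) ⟨(1 + y) + 2 ^ l * t, ?_⟩
        rw [Units.val_mul, ht, hμ', ← Quaternion.coe_mul]
        congr 1
        rw [hy]; ring
      obtain ⟨c, hc⟩ := h1
      obtain ⟨d, hd⟩ := h2
      refine ⟨d * c⁻¹, ?_⟩
      rw [map_mul, hc] at hd
      rw [mul_pow, ← hd, inv_pow, mul_assoc, mul_inv_cancel, mul_one]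

end four

section five

/-- Every central unit is a square in every abelian quotient of the unit group. -/
lemma central_sq {m : ℕ} (hm : 4 ≤ m) {B : Type*} [CommGroup B]
    (f : (Quaternion (ZMod (2 ^ m)))ˣ →* B) (z : (Quaternion (ZMod (2 ^ m)))ˣ)
    (hI : (uI : (Quaternion (ZMod (2 ^ m)))ˣ) * z = z * uI)
    (hJ : (uJ : (Quaternion (ZMod (2 ^ m)))ˣ) * z = z * uJ) : ∃ c, f z = c ^ 2 := by
  have hI' : (mkq 0 1 0 0 : Quaternion (ZMod (2 ^ m))) * z.val = z.val * mkq 0 1 0 0 :=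
    congrArg Units.val hI
  have hJ' : (mkq 0 0 1 0 : Quaternion (ZMod (2 ^ m))) * z.val = z.val * mkq 0 0 1 0 :=
    congrArg Units.val hJ
  obtain ⟨-, a2, a3⟩ := comm_components hI'
  obtain ⟨b1, -, b3⟩ := comm_components hJ'
  simp only [mkq_imI, mkq_imJ, mkq_imK, zero_mul, one_mul, mul_zero] at a2 a3 b1 b3
  obtain ⟨y1, hy1⟩ := half_of_two_mul (by omega) b3.symm
  obtain ⟨y2, hy2⟩ := half_of_two_mul (by omega) a3
  obtain ⟨y3, hy3⟩ := half_of_two_mul (by omega) a2.symm
  have hN : IsUnit (Quaternion.normSq z.val) := z.isUnit.map _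
  obtain ⟨n, rfl⟩ : ∃ n, m = n + 4 := ⟨m - 4, by omega⟩
  have hz0 : (2 : ZMod (2 ^ (n + 4))) ^ (n + 4) = 0 := two_pow_zero _
  -- the real part is odd
  have hre : ∃ t, z.val.re = 1 + 2 * t := by
    rcases even_or_odd' z.val.re with ⟨y, hy⟩ | h
    · exfalso
      rw [Quaternion.normSq_def', hy, hy1, hy2, hy3] at hN
      have hnil : IsNilpotent ((2 * y) ^ 2 + (2 ^ (n + 4 - 1) * y1) ^ 2 + (2 ^ (n + 4 - 1) * y2) ^ 2 +
          (2 ^ (n + 4 - 1) * y3) ^ 2 : ZMod (2 ^ (n + 4))) := by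
        refine ⟨n + 4, ?_⟩
        have e : ((2 * y) ^ 2 + (2 ^ (n + 4 - 1) * y1) ^ 2 + (2 ^ (n + 4 - 1) * y2) ^ 2 +
          (2 ^ (n + 4 - 1) * y3) ^ 2 : ZMod (2 ^ (n + 4))) = 2 * (2 * y ^ 2 +
            2 * (2 ^ (n + 2) * y1) ^ 2 + 2 * (2 ^ (n + 2) * y2) ^ 2 +
            2 * (2 ^ (n + 2) * y3) ^ 2) := by
          have : n + 4 - 1 = n + 3 := by omega
          rw [this]; ring
        rw [e, mul_pow, hz0, zero_mul]
      haveI : Fact (1 < 2 ^ (n + 4)) := ⟨Nat.one_lt_two_pow (by omega)⟩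
      exact hnil.not_isUnit hN
    · exact h
  obtain ⟨t, ht⟩ := hre
  have hlam : IsUnit (1 + 2 * t : ZMod (2 ^ (n + 4))) := isUnit_odd t
  obtain ⟨L, hL⟩ := isUnit_coe_iff hlam
  obtain ⟨c, hc⟩ := scalar_sq f (n + 4) 1 le_rfl (by omega) L ⟨t, by rw [hL, pow_one]⟩
  -- the square factor
  let x : Quaternion (ZMod (2 ^ (n + 4))) := mkq 1 (2 ^ (n + 2) * y1) (2 ^ (n + 2) * y2) (2 ^ (n + 2) * y3)
  have hx : z.val = L.val * (x * x) := by
    rw [hL]
    have e3 : n + 4 - 1 = n + 3 := by omega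
    rw [e3] at hy1 hy2 hy3
    apply Quaternion.ext <;>
      simp only [x, Quaternion.re_mul, Quaternion.imI_mul, Quaternion.imJ_mul, Quaternion.imK_mul,
        Quaternion.re_coe, Quaternion.imI_coe, Quaternion.imJ_coe, Quaternion.imK_coe,
        mkq_re, mkq_imI, mkq_imJ, mkq_imK]
    · rw [ht]
      linear_combination (-(1 + 2 * t)) * (- (y1 ^ 2 + y2 ^ 2 + y3 ^ 2) * 2 ^ n) * hz0
    · rw [hy1]
      linear_combination (- t * y1) * hz0
    · rw [hy2]
      linear_combination (- t * y2) * hz0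
    · rw [hy3]
      linear_combination (- t * y3) * hz0
  have hxx : IsUnit (x * x) := by
    have : x * x = (L⁻¹ * z : (Quaternion (ZMod (2 ^ (n + 4))))ˣ) := by
      rw [Units.val_mul, hx, ← mul_assoc, Units.inv_mul, one_mul]
    rw [this]; exact Units.isUnit _
  have hxu : IsUnit x := ((Commute.refl x).isUnit_mul_iff.mp hxx).1
  obtain ⟨X, hX⟩ := hxu
  have hzX : z = L * (X * X) := by
    apply Units.ext
    rw [Units.val_mul, Units.val_mul, hX, hx]
  refine ⟨c * f X, ?_⟩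
  rw [hzX, map_mul, map_mul, hc, mul_pow, sq (f X)]

/-- even imaginary parts -/
def EvenIm {Z : Type*} [CommRing Z] (x : Quaternion Z) : Prop :=
  (∃ y, x.imI = 2 * y) ∧ (∃ y, x.imJ = 2 * y) ∧ (∃ y, x.imK = 2 * y)

lemma EvenIm.mul {Z : Type*} [CommRing Z] {x y : Quaternion Z} (hx : EvenIm x) (hy : EvenIm y) :
    EvenIm (x * y) := by
  obtain ⟨⟨a1, h1⟩, ⟨a2, h2⟩, ⟨a3, h3⟩⟩ := hx
  obtain ⟨⟨b1, k1⟩, ⟨b2, k2⟩, ⟨b3, k3⟩⟩ := hy
  refine ⟨⟨x.re * b1 + a1 * y.re + a2 * y.imK - a3 * y.imJ, ?_⟩,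
    ⟨x.re * b2 - a1 * y.imK + a2 * y.re + a3 * y.imI, ?_⟩,
    ⟨x.re * b3 + a1 * y.imJ - a2 * y.imI + a3 * y.re, ?_⟩⟩
  · rw [Quaternion.imI_mul, h1, h2, h3]
    linear_combination x.re * k1
  · rw [Quaternion.imJ_mul, h1, h2, h3]
    linear_combination x.re * k2
  · rw [Quaternion.imK_mul, h1, h2, h3]
    linear_combination x.re * k3

lemma subsingleton_of_not_even {m : ℕ} (hm : 4 ≤ m) {A B : Type*} [Group A] [Group B]
    (e : (Quaternion (ZMod (2 ^ m)))ˣ ≃* A × B)
    (h : ∃ a : A, ¬ EvenIm (e.symm (a, 1)).val) : Subsingleton B := by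
  obtain ⟨a, ha⟩ := h
  have hx : IsUnit (e.symm (a, 1)).val.imI ∨ IsUnit (e.symm (a, 1)).val.imJ ∨
      IsUnit (e.symm (a, 1)).val.imK := by
    by_contra hcon
    push Not at hcon
    apply ha
    refine ⟨?_, ?_, ?_⟩
    · rcases even_or_odd' (e.symm (a, 1)).val.imI with h | ⟨y, hy⟩
      · exact h
      · exact absurd (hy ▸ isUnit_odd y) hcon.1
    · rcases even_or_odd' (e.symm (a, 1)).val.imJ with h | ⟨y, hy⟩
      · exact h
      · exact absurd (hy ▸ isUnit_odd y) hcon.2.1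
    · rcases even_or_odd' (e.symm (a, 1)).val.imK with h | ⟨y, hy⟩
      · exact h
      · exact absurd (hy ▸ isUnit_odd y) hcon.2.2
  have hcomm : ∀ b : B, (e.symm (a, 1)).val * (e.symm (1, b)).val =
      (e.symm (1, b)).val * (e.symm (a, 1)).val := by
    intro b
    rw [← Units.val_mul, ← Units.val_mul, ← map_mul, ← map_mul]
    simp
  have hB : ∀ b b' : B, b * b' = b' * b := by
    intro b b'
    have := comm_of_comm hx (hcomm b) (hcomm b')
    rw [← Units.val_mul, ← Units.val_mul, ← map_mul, ← map_mul] at this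
    have h2 := e.symm.injective (Units.ext this)
    simpa using h2
  letI : CommGroup B := { (inferInstance : Group B) with mul_comm := hB }
  -- each element of B is a square
  have hsq : ∀ b : B, ∃ c : B, b = c ^ 2 := by
    intro b
    have hcen : ∀ g : (Quaternion (ZMod (2 ^ m)))ˣ, g * e.symm (1, b) = e.symm (1, b) * g := by
      intro g
      apply e.injective
      rw [map_mul, map_mul, MulEquiv.apply_symm_apply]
      ext
      · simp
      · simp only [Prod.snd_mul]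
        exact hB _ _
    obtain ⟨c, hc⟩ := central_sq hm ((MonoidHom.snd A B).comp e.toMonoidHom) (e.symm (1, b))
      (hcen _) (hcen _)
    refine ⟨c, ?_⟩
    simpa using hc
  have hsq' : ∀ n : ℕ, ∀ b : B, ∃ c : B, b = c ^ (2 ^ n) := by
    intro n
    induction n with
    | zero => intro b; exact ⟨b, by simp⟩
    | succ n ih =>
      intro b
      obtain ⟨c, hc⟩ := ih b
      obtain ⟨d, hd⟩ := hsq c
      refine ⟨d, ?_⟩
      rw [hc, hd, ← pow_mul, pow_succ']
  refine ⟨fun b b' => ?_⟩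
  have hone : ∀ b : B, b = 1 := by
    intro b
    obtain ⟨c, hc⟩ := hsq' m b
    have h1 := pow_eq_one (m := m) (by omega) (e.symm (1, c))
    have h2 := congrArg e h1
    rw [map_pow, MulEquiv.apply_symm_apply, map_one] at h2
    have h3 := congrArg Prod.snd h2
    rw [hc]
    simpa using h3
  rw [hone b, hone b']

/-- The unit group is not a product of two nontrivial groups. -/
lemma indecomposable_aux {m : ℕ} (hm : 4 ≤ m) {A B : Type*} [Group A] [Group B]
    (e : (Quaternion (ZMod (2 ^ m)))ˣ ≃* A × B) : Subsingleton A ∨ Subsingleton B := by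
  by_cases h1 : ∃ a : A, ¬ EvenIm (e.symm (a, 1)).val
  · exact Or.inr (subsingleton_of_not_even hm e h1)
  by_cases h2 : ∃ b : B, ¬ EvenIm (e.symm (1, b)).val
  · refine Or.inl (subsingleton_of_not_even hm (e.trans MulEquiv.prodComm) ?_)
    obtain ⟨b, hb⟩ := h2
    exact ⟨b, hb⟩
  exfalso
  push Not at h1 h2
  have h3 : EvenIm (uI : (Quaternion (ZMod (2 ^ m)))ˣ).val := by
    have : uI = e.symm ((e uI).1, 1) * e.symm (1, (e uI).2) := by
      rw [← map_mul]; simp
    rw [this, Units.val_mul]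
    exact (h1 _).mul (h2 _)
  obtain ⟨⟨y, hy⟩, -, -⟩ := h3
  have hy' : (1 : ZMod (2 ^ m)) = 2 * y := hy
  have hnil : IsNilpotent (1 : ZMod (2 ^ m)) := ⟨m, by rw [hy', mul_pow, two_pow_zero, zero_mul]⟩
  haveI : Fact (1 < 2 ^ m) := ⟨Nat.one_lt_two_pow (by omega)⟩
  exact not_isNilpotent_one hnil

end five

section six

/-- `1 + i + j` has large powers of the form `1 + 2^k (2 a + b (i + j))` with `b` odd. -/
lemma pow_g_aux {Z : Type*} [CommRing Z] (k : ℕ) : ∃ a b : Z,
    (mkq 1 1 1 0 : Quaternion Z) ^ (2 ^ (k + 2)) =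
      mkq (1 + 2 ^ (k + 2) * (2 * a)) (2 ^ (k + 2) * (1 + 2 * b)) (2 ^ (k + 2) * (1 + 2 * b)) 0 := by
  induction k with
  | zero =>
    refine ⟨-1, -1, ?_⟩
    have h2 : (mkq 1 1 1 0 : Quaternion Z) * mkq 1 1 1 0 = mkq (-1) 2 2 0 := by
      apply Quaternion.ext <;>
        simp only [Quaternion.re_mul, Quaternion.imI_mul, Quaternion.imJ_mul, Quaternion.imK_mul,
          mkq_re, mkq_imI, mkq_imJ, mkq_imK] <;> ring
    have h4 : (mkq 1 1 1 0 : Quaternion Z) ^ (2 ^ (0 + 2)) = mkq (-1) 2 2 0 * mkq (-1) 2 2 0 := by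
      rw [← h2]
      simp only [← sq, ← pow_mul]
    rw [h4]
    apply Quaternion.ext <;>
      simp only [Quaternion.re_mul, Quaternion.imI_mul, Quaternion.imJ_mul, Quaternion.imK_mul,
        mkq_re, mkq_imI, mkq_imJ, mkq_imK] <;> ring
  | succ k ih =>
    obtain ⟨a, b, hab⟩ := ih
    refine ⟨a + 2 ^ k * ((2 * a) ^ 2 - 2 * (1 + 2 * b) ^ 2), b + 2 ^ (k + 1) * (2 * a) * (1 + 2 * b), ?_⟩
    rw [show k + 1 + 2 = (k + 2) + 1 by ring, pow_succ 2 (k + 2), pow_mul, hab, sq]
    apply Quaternion.ext <;>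
      simp only [Quaternion.re_mul, Quaternion.imI_mul, Quaternion.imJ_mul, Quaternion.imK_mul,
        mkq_re, mkq_imI, mkq_imJ, mkq_imK]
    · ring
    · ring
    · ring
    · ring

open Polynomial in
/-- In a ring of characteristic 2, a unit of order `2^(n+1)` forces at least `2^(2^n)` units. -/
lemma card_units_ge {S : Type*} [Ring S] [CharP S 2] [Finite Sˣ] (u : Sˣ) (n : ℕ)
    (h1 : u ^ (2 ^ (n + 1)) = 1) (h2 : u ^ (2 ^ n) ≠ 1) : 2 ^ (2 ^ n) ≤ Nat.card Sˣ := by
  letI : Algebra (ZMod 2) S := ZMod.algebra S 2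
  set x : S := (u : S) - 1 with hxdef
  have hx0 : x ^ (2 ^ (n + 1)) = 0 := by
    rw [hxdef, sub_pow_char_pow_of_commute 2 _ (Commute.one_right _), one_pow,
      ← Units.val_pow_eq_pow_val, h1]
    simp
  have hx1 : x ^ (2 ^ n) ≠ 0 := by
    rw [hxdef, sub_pow_char_pow_of_commute 2 _ (Commute.one_right _), one_pow,
      ← Units.val_pow_eq_pow_val]
    intro h
    apply h2
    apply Units.ext
    rw [Units.val_one]
    exact sub_eq_zero.mp h
  -- no nonzero polynomial of degree at most `2^n` kills `x`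
  have hkey : ∀ d : (ZMod 2)[X], d ≠ 0 → d.natDegree ≤ 2 ^ n → aeval x d ≠ 0 := by
    intro d hd hdeg h0
    have hg0 : aeval x (EuclideanDomain.gcd d (X ^ (2 ^ (n + 1)))) = 0 := by
      rw [EuclideanDomain.gcd_eq_gcd_ab, map_add, map_mul, map_mul, h0, map_pow, aeval_X, hx0]
      simp
    have hdvd : EuclideanDomain.gcd d (X ^ (2 ^ (n + 1))) ∣ X ^ (2 ^ (n + 1)) :=
      EuclideanDomain.gcd_dvd_right _ _
    obtain ⟨r, -, hr⟩ := (dvd_prime_pow (prime_X (R := ZMod 2)) _).mp hdvd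
    have hrd : X ^ r ∣ d := hr.symm.dvd.trans (EuclideanDomain.gcd_dvd_left _ _)
    have hrle : r ≤ 2 ^ n := by
      have := natDegree_le_of_dvd hrd hd
      rw [natDegree_X_pow] at this
      omega
    have hxr : x ^ r = 0 := by
      obtain ⟨v, hv⟩ := hr
      have := congrArg (aeval x) hv
      rw [map_mul, hg0, zero_mul, map_pow, aeval_X] at this
      exact this.symm
    apply hx1
    obtain ⟨l, hl⟩ : ∃ l, 2 ^ n = r + l := ⟨2 ^ n - r, by omega⟩
    rw [hl, pow_add, hxr, zero_mul]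
  -- the injection
  have hunit : ∀ p : (ZMod 2)[X], IsUnit (1 + x * aeval x p) := by
    intro p
    apply IsNilpotent.isUnit_one_add
    refine ⟨2 ^ (n + 1), ?_⟩
    have hc : Commute x (aeval x p) := by
      have : Commute (aeval x (X : (ZMod 2)[X])) (aeval x p) := by
        rw [Commute, SemiconjBy, ← map_mul, ← map_mul, mul_comm]
      rwa [aeval_X] at this
    rw [hc.mul_pow, hx0, zero_mul]
  let F : degreeLT (ZMod 2) (2 ^ n) → Sˣ := fun p => (hunit p.1).unit
  have hF : Function.Injective F := by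
    intro p q hpq
    have h3 : (1 : S) + x * aeval x p.1 = 1 + x * aeval x q.1 := by
      have := congrArg Units.val hpq
      simpa [F] using this
    have h4 : aeval x (X * (p.1 - q.1)) = 0 := by
      rw [map_mul, aeval_X, map_sub, mul_sub, sub_eq_zero]
      exact add_left_cancel h3
    by_contra hne
    have hne' : p.1 - q.1 ≠ 0 := by
      intro h
      exact hne (Subtype.ext (sub_eq_zero.mp h))
    refine hkey (X * (p.1 - q.1)) (mul_ne_zero X_ne_zero hne') ?_ h4
    have hmem : p.1 - q.1 ∈ degreeLT (ZMod 2) (2 ^ n) := Submodule.sub_mem _ p.2 q.2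
    rw [mem_degreeLT, ← natDegree_lt_iff_degree_lt hne'] at hmem
    rw [natDegree_mul X_ne_zero hne', natDegree_X]
    omega
  have hcard : Nat.card (degreeLT (ZMod 2) (2 ^ n)) = 2 ^ (2 ^ n) := by
    rw [Nat.card_congr (degreeLTEquiv (ZMod 2) (2 ^ n)).toEquiv]
    simp [Nat.card_eq_fintype_card]
  rw [← hcard]
  exact Nat.card_le_card_of_injective F hF

end six

section seven

lemma card_quaternion (m : ℕ) : Nat.card (Quaternion (ZMod (2 ^ m))) = 2 ^ (4 * m) := by
  haveI : NeZero (2 ^ m) := ⟨by positivity⟩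
  refine (Nat.card_congr (QuaternionAlgebra.equivProd (-1 : ZMod (2 ^ m)) 0 (-1))).trans ?_
  simp only [Nat.card_eq_fintype_card, Fintype.card_prod, ZMod.card]
  ring

instance finite_quaternion (m : ℕ) : Finite (Quaternion (ZMod (2 ^ m))) := by
  haveI : NeZero (2 ^ m) := ⟨by positivity⟩
  exact Finite.of_equiv _ (QuaternionAlgebra.equivProd (-1 : ZMod (2 ^ m)) 0 (-1)).symm

instance charP_quaternion (n : ℕ) : CharP (Quaternion (ZMod n)) n where
  cast_eq_zero_iff x := by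
    constructor
    · intro h
      have := congrArg QuaternionAlgebra.re h
      have h2 : ((x : ℕ) : ZMod n) = 0 := this
      exact (ZMod.natCast_eq_zero_iff x n).mp h2
    · intro h
      have h2 : ((x : ℕ) : ZMod n) = 0 := (ZMod.natCast_eq_zero_iff x n).mpr h
      apply Quaternion.ext
      · exact h2
      · rfl
      · rfl
      · rfl

end seven

end Pool.Agent.Lib.MP_aafbbc_al
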